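import Pool.Agent.Helper75.CR.St

/-! Project CR (MP_265e56_al), module H4: the induction step, neither congruence of type one -/

set_option autoImplicit false

namespace Pool.Agent.Helper28.CR

open Pool.Agent.Helper75.CR Helper1.IM

/-- First occurrence of an index. -/
theorem first_occ {B : Type} (i : ℕ) : ∀ s : Wo B, i ∈ cn s →
    ∃ x b y, s = x ++ b :: y ∧ b.1 = i ∧ i ∉ cn x := by
  intro s
  induction s with
  | nil => intro h; simp at h
  | cons a s ih =>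
    intro h
    by_cases ha : a.1 = i
    · exact ⟨[], a, s, rfl, ha, by simp⟩
    · have h1 : i ∈ cn s := by
        rw [cn_cons, Finset.mem_insert] at h
        rcases h with h | h
        · exact absurd h.symm ha
        · exact h
      obtain ⟨x, b, y, h2, h3, h4⟩ := ih h1
      refine ⟨a :: x, b, y, by rw [h2]; rfl, h3, ?_⟩
      rw [cn_cons, Finset.mem_insert]
      rintro (h5 | h5)
      · exact ha h5.symm
      · exact h4 h5

/-- An index occurring in `s` is before the new letter after `s`. -/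
theorem bef_of {B : Type} (i : ℕ) (s : Wo B) (a : ℕ × B) (t : Wo B) (hi : i ∈ cn s)
    (ha : a.1 ∉ cn s) : Bef i a.1 (s ++ a :: t) := by
  obtain ⟨x, b, y, h2, h3, h4⟩ := first_occ i s hi
  refine ⟨x, b, y ++ a :: t, by rw [h2]; simp, h3, h4, ?_⟩
  intro h5
  apply ha
  rw [h2, cn_append]
  exact Finset.mem_union_left _ h5

/-- The last new indices agree. -/
theorem same_last (hA : Helper75.CR.StA) {B : Type} {S : Sgn B} {θ ρ : Pg S} (hθ : Bs S θ)
    (hρ : LeP θ ρ) (hAA : ¬ AA ρ) (s1 t1 s2 t2 : Wo B) (a1 a2 : ℕ × B)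
    (h1 : a1.1 ∉ cn s1) (h2 : a2.1 ∉ cn s2)
    (h1' : cn (s1 ++ [a1]) = cn (s1 ++ a1 :: t1)) (h2' : cn (s2 ++ [a2]) = cn (s2 ++ a2 :: t2))
    (h : Er ρ (s1 ++ a1 :: t1) (s2 ++ a2 :: t2)) : a1.1 = a2.1 := by
  by_contra hne
  have hc := h.cn
  have m1 : a2.1 ∈ cn s1 := by
    have h3 : a2.1 ∈ cn (s1 ++ [a1]) := by
      rw [h1', hc, ← h2']
      simp
    rw [cn_append, Finset.mem_union] at h3
    rcases h3 with h3 | h3
    · exact h3
    · simp at h3
      exact absurd h3.symm hne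
  have m2 : a1.1 ∈ cn s2 := by
    have h3 : a1.1 ∈ cn (s2 ++ [a2]) := by
      rw [h2', ← hc, ← h1']
      simp
    rw [cn_append, Finset.mem_union] at h3
    rcases h3 with h3 | h3
    · exact h3
    · simp at h3
      exact absurd h3 hne
  exact hAA (hA B S θ ρ hθ hρ a2.1 a1.1 _ _ (fun e => hne e.symm) h
    (bef_of a2.1 s1 a1 t1 m1 h1) (bef_of a1.1 s2 a2 t2 m2 h2))

/-- Cutting off the part after the last new letter. -/
theorem cut {B : Type} {S : Sgn B} {θ : Pg S} (hθ : Bs S θ) (s t : Wo B) (a : ℕ × B)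
    (h : cn (s ++ [a]) = cn (s ++ a :: t)) : Er θ (s ++ [a]) (s ++ a :: t) := by
  have h1 : s ++ a :: t = (s ++ [a]) ++ t := by simp
  rw [h1]
  apply hθ.ext (by simp)
  rw [h, h1, cn_append]
  exact Finset.subset_union_right

theorem cn_init {B : Type} (s t : Wo B) (k : ℕ) (b c : B) (hs : k ∉ cn s) (ht : k ∉ cn t)
    (h : cn (s ++ [(k, b)]) = cn (t ++ [(k, c)])) : cn s = cn t := by
  ext i
  have h1 : i ∈ cn (s ++ [(k, b)]) ↔ i ∈ cn (t ++ [(k, c)]) := by rw [h]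
  simp only [cn_append, cn_cons, cn_nil, Finset.mem_union, Finset.mem_insert,
    Finset.notMem_empty, or_false] at h1
  by_cases hi : i = k
  · subst hi
    exact ⟨fun h2 => absurd h2 hs, fun h2 => absurd h2 ht⟩
  · simpa [hi] using h1

/-- The words before the last new letter are related by the congruence of `StG`. -/
theorem base (hE : Helper75.CR.StE) {B : Type} {S : Sgn B} {θ ρ : Pg S} (hθ : Bs S θ)
    (hρ : LeP θ ρ) (ρ0 : Pg S)
    (hρ0 : ∀ (s t : Wo B) (k : ℕ) (c : B), s ≠ [] → cn s = cn t → k ∉ cn s →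
      Er ρ (s ++ [(k, c)]) (t ++ [(k, c)]) → ρ0.r s t)
    (s t : Wo B) (k : ℕ) (b c : B) (hs : s ≠ []) (hc : cn s = cn t) (hk : k ∉ cn s)
    (h : Er ρ (s ++ [(k, b)]) (t ++ [(k, c)])) : ρ0.r s t := by
  apply hρ0 s t k b hs hc hk
  by_cases hbc : b = c
  · subst hbc
    exact h
  · have ht : t ≠ [] := ne_nil_of_cn hc hs
    exact h.trans ((hE B S θ ρ hθ hρ k b c s t hbc hs hc hk h t k c b ht))

theorem hH4 (hA : Helper75.CR.StA) (hE : Helper75.CR.StE) (hF : Helper75.CR.StF)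
    (hG : Helper75.CR.StG) : Helper75.CR.StH4 := by
  intro B S θ m hθ hm hPM α β hα hβ _ _ hAα hAβ u w v hcard huw hwv
  obtain ⟨s1, a1, t1, hu, k1, c1⟩ := hF B u huw.ne
  obtain ⟨s2, a2, t2, hw, k2, c2⟩ := hF B w huw.ne2
  obtain ⟨s3, a3, t3, hv, k3, c3⟩ := hF B v hwv.ne2
  subst hu hw hv
  have e12 : a1.1 = a2.1 := same_last hA hθ hα hAα s1 t1 s2 t2 a1 a2 k1 k2 c1 c2 huw
  have e23 : a2.1 = a3.1 := same_last hA hθ hβ hAβ s2 t2 s3 t3 a2 a3 k2 k3 c2 c3 hwv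
  have f1 := cut hθ s1 t1 a1 c1
  have f2 := cut hθ s2 t2 a2 c2
  have f3 := cut hθ s3 t3 a3 c3
  obtain ⟨k, b1⟩ := a1
  obtain ⟨k', b2⟩ := a2
  obtain ⟨k'', b3⟩ := a3
  simp only at e12 e23
  subst e12 e23
  simp only at k1 k2 k3
  have g12 : Er α (s1 ++ [(k, b1)]) (s2 ++ [(k, b2)]) :=
    ((f1.mono hα).trans huw).trans (f2.mono hα).symm
  have g23 : Er β (s2 ++ [(k, b2)]) (s3 ++ [(k, b3)]) :=
    ((f2.mono hβ).trans hwv).trans (f3.mono hβ).symm
  have n12 : cn s1 = cn s2 := cn_init s1 s2 k b1 b2 k1 k2 g12.cn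
  have n23 : cn s2 = cn s3 := cn_init s2 s3 k b2 b3 k2 k3 g23.cn
  have hm1 : (cn s1).card = m := by
    rw [← c1] at hcard
    have h1 : cn (s1 ++ [(k, b1)]) = insert k (cn s1) := by
      ext i
      simp
    rw [h1, Finset.card_insert_of_notMem k1] at hcard
    omega
  have hs1 : s1 ≠ [] := by
    rintro rfl
    simp at hm1
    omega
  have hs2 : s2 ≠ [] := ne_nil_of_cn n12 hs1
  have hs3 : s3 ≠ [] := ne_nil_of_cn n23 hs2
  obtain ⟨α0, hα0, cα0, α1, α2⟩ := hG B S θ α hθ hα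
  obtain ⟨β0, hβ0, cβ0, β1, β2⟩ := hG B S θ β hθ hβ
  have r12 : α0.r s1 s2 := base hE hθ hα α0 α2 s1 s2 k b1 b2 hs1 n12 k1 g12
  have r23 : β0.r s2 s3 := base hE hθ hβ β0 β2 s2 s3 k b2 b3 hs2 n23 k2 g23
  obtain ⟨s', p1, p2⟩ := hPM α0 β0 hα0 hβ0 cα0 cβ0 s1 s2 s3 hm1 r12 r23
  have n1' : cn s1 = cn s' := cβ0 _ _ p1
  have hs' : s' ≠ [] := ne_nil_of_cn n1' hs1
  have k' : k ∉ cn s' := by
    rw [← n1']
    exact k1
  have q1 : ∀ c : B, Er β (s1 ++ [(k, c)]) (s' ++ [(k, c)]) := fun c => β1 s1 s' k c hs1 p1 k1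
  have q2 : ∀ c : B, Er α (s' ++ [(k, c)]) (s3 ++ [(k, c)]) := fun c => α1 s' s3 k c hs' p2 k'
  have F1 := (f1.mono hβ).symm
  have F3 := f3.mono hα
  by_cases h13 : b1 = b3
  · subst h13
    exact ⟨s' ++ [(k, b1)], F1.trans (q1 b1), (q2 b1).trans F3⟩
  · by_cases h12 : b1 = b2
    · have h23 : b2 ≠ b3 := fun e => h13 (h12.trans e)
      have hEβ := hE B S θ β hθ hβ k b2 b3 s2 s3 h23 hs2 n23 k2 g23
      exact ⟨s' ++ [(k, b3)], (F1.trans (hEβ s1 k b1 b3 hs1)).trans (q1 b3), (q2 b3).trans F3⟩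
    · have hEα := hE B S θ α hθ hα k b1 b2 s1 s2 h12 hs1 n12 k1 g12
      exact ⟨s' ++ [(k, b1)], F1.trans (q1 b1), ((hEα s' k b1 b3 hs').trans (q2 b3)).trans F3⟩

end Pool.Agent.Helper28.CR
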